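import Pool.Agent.Y706.BI.Stm

set_option autoImplicit false

/-!
# Project BI, the statement COV: points with large expansion are close to roots
-/

namespace Pool.Agent.Y405.BI

open Pool.Agent.W277.UB Pool.Agent.W277.UG Pool.Agent.W277.UH Finset Pool.Agent.Y706.BI

universe u

section Basic

variable {Ω : Type u} [NormedField Ω] [IsUltrametricDist Ω]

lemma norm_add_le_max' (a b : Ω) : ‖a + b‖ ≤ max ‖a‖ ‖b‖ := by
  exact IsUltrametricDist.norm_add_le_max a b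

lemma norm_sub_le_max' (a b : Ω) : ‖a - b‖ ≤ max ‖a‖ ‖b‖ := by
  have h1 := norm_add_le_max' a (-b)
  rwa [norm_neg, ← sub_eq_add_neg] at h1

lemma norm_eq_of_sub_lt {a b : Ω} (h : ‖a - b‖ < ‖b‖) : ‖a‖ = ‖b‖ := by
  apply le_antisymm
  · have h1 := norm_add_le_max' (a - b) b
    rw [sub_add_cancel] at h1
    exact h1.trans (max_le h.le le_rfl)
  · have h1 := norm_sub_le_max' a (a - b)
    rw [sub_sub_cancel] at h1
    rcases le_max_iff.mp h1 with h2 | h2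
    · exact h2
    · exact absurd h2 (not_le.mpr h)

lemma norm_eq_of_sub_lt₂ {a b : Ω × Ω} (h : ‖a - b‖ < ‖b‖) : ‖a‖ = ‖b‖ := by
  apply le_antisymm
  · have h1 := norm_sub_le_max (a - b) (-b)
    rw [sub_neg_eq_add, sub_add_cancel, norm_neg] at h1
    exact h1.trans (max_le h.le le_rfl)
  · have h1 := norm_sub_le_max a (a - b)
    rw [sub_sub_cancel] at h1
    rcases le_max_iff.mp h1 with h2 | h2
    · exact h2
    · exact absurd h2 (not_le.mpr h)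

lemma pow_sub_one_le {v : Ω} (h : ‖v - 1‖ < 1) (i : ℕ) : ‖v ^ i - 1‖ ≤ ‖v - 1‖ := by
  have hv : ‖v‖ = 1 := by
    have := norm_eq_of_sub_lt (a := v) (b := 1) (by rwa [norm_one])
    rw [this, norm_one]
  induction i with
  | zero => rw [pow_zero, sub_self, norm_zero]; exact norm_nonneg _
  | succ i ih =>
    have h1 : v ^ (i + 1) - 1 = v * (v ^ i - 1) + (v - 1) := by ring
    rw [h1]
    refine (norm_add_le_max' _ _).trans (max_le ?_ le_rfl)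
    rw [norm_mul, hv, one_mul]
    exact ih

lemma norm_pow_sub_one {v : Ω} (h : ‖v - 1‖ < 1) (d : ℕ) (hd : ‖(d : Ω)‖ = 1) :
    ‖v ^ d - 1‖ = ‖v - 1‖ := by
  rw [← geom_sum_mul, norm_mul]
  have h1 : ‖∑ i ∈ range d, v ^ i‖ = ‖(d : Ω)‖ := by
    apply norm_eq_of_sub_lt
    have h2 : ∑ i ∈ range d, v ^ i - (d : Ω) = ∑ i ∈ range d, (v ^ i - 1) := by
      rw [sum_sub_distrib, sum_const, card_range, nsmul_one]
    rw [h2, hd]
    refine lt_of_le_of_lt ?_ h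
    exact IsUltrametricDist.norm_sum_le_of_forall_le_of_nonneg (norm_nonneg _)
      (fun i _ => pow_sub_one_le h i)
  rw [h1, hd, one_mul]

lemma norm_pow_sub_pow {a b : Ω} (h : ‖a - b‖ < ‖b‖) (d : ℕ) (hd1 : 1 ≤ d)
    (hd : ‖(d : Ω)‖ = 1) : ‖a ^ d - b ^ d‖ = ‖a - b‖ * ‖b‖ ^ (d - 1) := by
  have hb : b ≠ 0 := by
    rintro rfl
    rw [norm_zero] at h
    exact absurd h (not_lt.mpr (norm_nonneg _))
  have hb' : 0 < ‖b‖ := norm_pos_iff.mpr hb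
  have h1 : ‖a / b - 1‖ < 1 := by
    have h2 : a / b - 1 = (a - b) / b := by field_simp
    rw [h2, norm_div, div_lt_one hb']
    exact h
  have h3 := norm_pow_sub_one h1 d hd
  have h4 : a ^ d - b ^ d = b ^ d * ((a / b) ^ d - 1) := by
    rw [div_pow]
    field_simp
  have h5 : a - b = b * (a / b - 1) := by field_simp
  rw [h4, norm_mul, h3, norm_pow]
  conv_rhs => rw [h5, norm_mul]
  obtain ⟨e, rfl⟩ : ∃ e, d = e + 1 := ⟨d - 1, by omega⟩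
  rw [Nat.add_sub_cancel, pow_succ]
  ring

/-- crude version for the size of `F X' - F X` -/
lemma norm_pow_sub_pow_le {a b : Ω} (ha : ‖a‖ ≤ 1) (hb : ‖b‖ ≤ 1) (d : ℕ) :
    ‖a ^ d - b ^ d‖ ≤ ‖a - b‖ := by
  induction d with
  | zero => rw [pow_zero, pow_zero, sub_self, norm_zero]; exact norm_nonneg _
  | succ d ih =>
    have h1 : a ^ (d + 1) - b ^ (d + 1) = a * (a ^ d - b ^ d) + b ^ d * (a - b) := by ring
    rw [h1]
    refine (norm_add_le_max' _ _).trans (max_le ?_ ?_)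
    · rw [norm_mul]
      exact (mul_le_of_le_one_left (norm_nonneg _) ha).trans ih
    · rw [norm_mul, norm_pow]
      exact mul_le_of_le_one_left (norm_nonneg _) (pow_le_one₀ (norm_nonneg _) hb)

lemma prod_close {ι : Type} (s : Finset ι) (a b : ι → Ω) (r : ℝ) (hr0 : 0 ≤ r) (hr : r ≤ 1)
    (h : ∀ i ∈ s, ‖a i - b i‖ ≤ r * ‖b i‖) :
    ‖∏ i ∈ s, a i - ∏ i ∈ s, b i‖ ≤ r * ‖∏ i ∈ s, b i‖ := by
  classical
  induction s using Finset.induction_on with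
  | empty => rw [prod_empty, prod_empty, sub_self, norm_zero, norm_one, mul_one]; exact hr0
  | insert j s hj ih =>
    have ih' := ih (fun i hi => h i (mem_insert_of_mem hi))
    have hA : ‖∏ i ∈ s, a i‖ ≤ ‖∏ i ∈ s, b i‖ := by
      have h1 := norm_add_le_max' (∏ i ∈ s, a i - ∏ i ∈ s, b i) (∏ i ∈ s, b i)
      rw [sub_add_cancel] at h1
      refine h1.trans (max_le (ih'.trans ?_) le_rfl)
      exact mul_le_of_le_one_left (norm_nonneg _) hr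
    rw [prod_insert hj, prod_insert hj]
    have h2 : a j * ∏ i ∈ s, a i - b j * ∏ i ∈ s, b i =
        (a j - b j) * ∏ i ∈ s, a i + b j * (∏ i ∈ s, a i - ∏ i ∈ s, b i) := by ring
    rw [h2]
    have hj' := h j (mem_insert_self _ _)
    refine (norm_add_le_max' _ _).trans (max_le ?_ ?_)
    · rw [norm_mul, norm_mul, ← mul_assoc]
      exact mul_le_mul hj' hA (norm_nonneg _) (by positivity)
    · rw [norm_mul, norm_mul]
      calc ‖b j‖ * ‖∏ i ∈ s, a i - ∏ i ∈ s, b i‖ ≤ ‖b j‖ * (r * ‖∏ i ∈ s, b i‖) :=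
            mul_le_mul_of_nonneg_left ih' (norm_nonneg _)
        _ = r * (‖b j‖ * ‖∏ i ∈ s, b i‖) := by ring

/-- Schwarz lemma -/
lemma schwarz (S : HS Ω) {b₁ b₂ : Ω × Ω} (hb₁ : ‖b₁‖ = 1) (hb₂ : ‖b₂‖ = 1)
    (hb : ‖wd b₁ b₂‖ = 1) {c₁ c₂ : Ω} {η₁ η₂ : Fin S.d → Ω × Ω} (h₁ : S.IsRS b₁ c₁ η₁)
    (h₂ : S.IsRS b₂ c₂ η₂) (X Z : Ω × Ω) (hZ : ‖Z‖ = 1) (μ : Ω) (s : ℝ)
    (hμ : ‖μ‖ * Real.exp s < 1) (hη₁ : ∀ l, Real.exp (-s) < ‖wd X (η₁ l)‖)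
    (hη₂ : ∀ l, Real.exp (-s) < ‖wd X (η₂ l)‖) :
    ‖wd (S.F (X + μ • Z)) (S.F X)‖ ≤ ‖S.F X‖ ^ 2 * (‖μ‖ * Real.exp s) ∧
      ‖S.F X‖ ≤ ‖S.F (X + μ • Z)‖ := by
  set r := ‖μ‖ * Real.exp s with hr
  have hr0 : 0 ≤ r := by positivity
  have key : ∀ (b : Ω × Ω) (c : Ω) (η : Fin S.d → Ω × Ω), S.IsRS b c η →
      (∀ l, Real.exp (-s) < ‖wd X (η l)‖) →
      ‖wd (S.F (X + μ • Z)) b - wd (S.F X) b‖ ≤ r * ‖wd (S.F X) b‖ := by
    intro b c η h hη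
    rw [h.2.2.1, h.2.2.1, ← mul_sub, norm_mul, norm_mul]
    have h3 := prod_close univ (fun l => wd (X + μ • Z) (η l)) (fun l => wd X (η l)) r hr0 hμ.le
      (fun l _ => by
        have h4 : wd (X + μ • Z) (η l) - wd X (η l) = μ * wd Z (η l) := by
          rw [wd_add_left, wd_smul_left]
          ring
        rw [h4, norm_mul]
        have h5 : ‖wd Z (η l)‖ ≤ 1 := by
          have := norm_wd_le Z (η l)
          rwa [hZ, h.2.1 l, one_mul] at this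
        have h6 : ‖μ‖ = r * Real.exp (-s) := by
          rw [hr, mul_assoc, ← Real.exp_add, add_neg_cancel, Real.exp_zero, mul_one]
        calc ‖μ‖ * ‖wd Z (η l)‖ ≤ ‖μ‖ * 1 := mul_le_mul_of_nonneg_left h5 (norm_nonneg _)
          _ = r * Real.exp (-s) := by rw [mul_one, h6]
          _ ≤ r * ‖wd X (η l)‖ := mul_le_mul_of_nonneg_left (hη l).le hr0)
    calc ‖c‖ * ‖∏ l, wd (X + μ • Z) (η l) - ∏ l, wd X (η l)‖
        ≤ ‖c‖ * (r * ‖∏ l, wd X (η l)‖) := mul_le_mul_of_nonneg_left h3 (norm_nonneg _)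
      _ = r * (‖c‖ * ‖∏ l, wd X (η l)‖) := by ring
  have k₁ := key b₁ c₁ η₁ h₁ hη₁
  have k₂ := key b₂ c₂ η₂ h₂ hη₂
  set A' := S.F (X + μ • Z)
  set A := S.F X
  have a₁ : ‖wd A b₁‖ ≤ ‖A‖ := by
    have := norm_wd_le A b₁
    rwa [hb₁, mul_one] at this
  have a₂ : ‖wd A b₂‖ ≤ ‖A‖ := by
    have := norm_wd_le A b₂
    rwa [hb₂, mul_one] at this
  constructor
  · have e1 : wd b₁ b₂ * wd A' A = (wd A' b₁ - wd A b₁) * wd A b₂ -
        (wd A' b₂ - wd A b₂) * wd A b₁ := by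
      unfold wd
      ring
    have e2 : ‖wd A' A‖ = ‖(wd A' b₁ - wd A b₁) * wd A b₂ - (wd A' b₂ - wd A b₂) * wd A b₁‖ := by
      rw [← e1, norm_mul, hb, one_mul]
    rw [e2]
    refine (norm_sub_le_max' _ _).trans (max_le ?_ ?_)
    · rw [norm_mul]
      calc ‖wd A' b₁ - wd A b₁‖ * ‖wd A b₂‖ ≤ (r * ‖A‖) * ‖A‖ :=
            mul_le_mul (k₁.trans (mul_le_mul_of_nonneg_left a₁ hr0)) a₂ (norm_nonneg _)
              (by positivity)
        _ = ‖A‖ ^ 2 * r := by ring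
    · rw [norm_mul]
      calc ‖wd A' b₂ - wd A b₂‖ * ‖wd A b₁‖ ≤ (r * ‖A‖) * ‖A‖ :=
            mul_le_mul (k₂.trans (mul_le_mul_of_nonneg_left a₂ hr0)) a₁ (norm_nonneg _)
              (by positivity)
        _ = ‖A‖ ^ 2 * r := by ring
  · have key2 : ∀ b : Ω × Ω, ‖b‖ = 1 → ‖wd A' b - wd A b‖ ≤ r * ‖wd A b‖ →
        ‖wd A b‖ ≤ ‖A'‖ := by
      intro b hb hk
      have h7 := norm_wd_le A' b
      rw [hb, mul_one] at h7
      refine le_trans (le_of_eq ?_) h7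
      by_cases h0 : wd A b = 0
      · rw [h0, norm_zero, mul_zero, sub_zero] at hk
        rw [h0, norm_zero]
        exact (le_antisymm hk (norm_nonneg _)).symm
      · refine (norm_eq_of_sub_lt (lt_of_le_of_lt hk ?_)).symm
        exact mul_lt_of_lt_one_left (norm_pos_iff.mpr h0) hμ
    exact (norm_le_of_wd hb₁ hb₂ hb A).trans (max_le (key2 b₁ hb₁ k₁) (key2 b₂ hb₂ k₂))

end Basic

section Expand

variable {Ω : Type u} [NormedField Ω] [IsUltrametricDist Ω] (T : BB Ω)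

/-- the logarithm of the expansion for the chordal distance -/
noncomputable def eps (X : UV Ω) : ℝ :=
  -(2 * T.ρ) + ((T.S.d : ℝ) - 1) * Real.log (‖X.1.1‖ * ‖X.1.2‖) - 2 * hh T.S X

lemma eqv_e1 (X : UV Ω) : eqv X (e1 Ω) ↔ X.1.2 = 0 := by
  unfold eqv e1 wd
  simp

lemma eqv_e2 (X : UV Ω) : eqv X (e2 Ω) ↔ X.1.1 = 0 := by
  unfold eqv e2 wd
  simp

lemma fU_spec (S : HS Ω) (X : UV Ω) :
    ∃ t : Ω, t ≠ 0 ∧ S.F X.1 = t • (fU S X).1 ∧ ‖t‖ = ‖S.F X.1‖ := nrm_spec _ _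

lemma iter_spec (S : HS Ω) (J : ℕ) (X : UV Ω) :
    ∃ t : Ω, t ≠ 0 ∧ S.F^[J] X.1 = t • ((fU S)^[J] X).1 ∧ ‖t‖ = ‖S.F^[J] X.1‖ := by
  suffices h : ∃ t : Ω, t ≠ 0 ∧ S.F^[J] X.1 = t • ((fU S)^[J] X).1 by
    obtain ⟨t, ht, h⟩ := h
    refine ⟨t, ht, h, ?_⟩
    rw [h, norm_smul, ((fU S)^[J] X).2, mul_one]
  induction J with
  | zero => exact ⟨1, one_ne_zero, by simp⟩
  | succ J ih =>
    obtain ⟨t, ht, h⟩ := ih
    obtain ⟨t', ht', h', -⟩ := fU_spec S ((fU S)^[J] X)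
    refine ⟨t ^ S.d * t', mul_ne_zero (pow_ne_zero _ ht) ht', ?_⟩
    rw [Function.iterate_succ_apply', Function.iterate_succ_apply', h, S.hom, h', smul_smul]

lemma expand (hnat : ∀ n : ℕ, n ≠ 0 → ‖(n : Ω)‖ = 1)
    (hh1 : ∀ X : UV Ω, -(2 * T.ρ) ≤ hh T.S X) (X X' : UV Ω) (h1 : X.1.1 ≠ 0) (h2 : X.1.2 ≠ 0)
    (h0 : wd X'.1 X.1 ≠ 0) (hδ1 : ‖wd X'.1 X.1‖ < Real.exp (-(2 * T.ρ)))
    (hδ2 : ‖wd X'.1 X.1‖ < ‖X.1.1‖ * ‖X.1.2‖) :
    wd (fU T.S X').1 (fU T.S X).1 ≠ 0 ∧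
      Real.log ‖wd (fU T.S X').1 (fU T.S X).1‖ = Real.log ‖wd X'.1 X.1‖ + eps T X := by
  have hd := T.hd
  have hx1 : ‖X.1.1‖ ≤ 1 := (norm_fst_le X.1).trans X.2.le
  have hx2 : ‖X.1.2‖ ≤ 1 := (norm_snd_le X.1).trans X.2.le
  have hp1 : 0 < ‖X.1.1‖ := norm_pos_iff.mpr h1
  have hp2 : 0 < ‖X.1.2‖ := norm_pos_iff.mpr h2
  have hδ3 : ‖wd X'.1 X.1‖ < 1 := hδ2.trans_le (mul_le_one₀ hx1 (norm_nonneg _) hx2)
  -- a vector `Z`
  obtain ⟨Z, hZ, hXZ⟩ : ∃ Z : Ω × Ω, ‖Z‖ = 1 ∧ ‖wd X.1 Z‖ = 1 := by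
    have h3 := X.2
    rw [Prod.norm_def] at h3
    rcases le_total ‖X.1.1‖ ‖X.1.2‖ with h | h
    · rw [max_eq_right h] at h3
      exact ⟨(1, 0), norm_e1, by unfold wd; simpa using h3⟩
    · rw [max_eq_left h] at h3
      exact ⟨(0, 1), norm_e2, by unfold wd; simpa using h3⟩
  have hXZ0 : wd X.1 Z ≠ 0 := by
    intro h
    rw [h, norm_zero] at hXZ
    exact zero_ne_one hXZ
  -- `X' = t X + ν Z`
  obtain ⟨t, ν, hX', hν⟩ : ∃ t ν : Ω, X'.1 = t • X.1 + ν • Z ∧ ‖ν‖ = ‖wd X'.1 X.1‖ := by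
    refine ⟨(wd X.1 Z)⁻¹ * wd X'.1 Z, -(wd X.1 Z)⁻¹ * wd X'.1 X.1, ?_, ?_⟩
    · have h3 : wd X.1 Z • X'.1 = wd X'.1 Z • X.1 - wd X'.1 X.1 • Z := by
        ext <;> simp only [wd, Prod.smul_fst, Prod.smul_snd, Prod.fst_sub, Prod.snd_sub,
          smul_eq_mul] <;> ring
      have h4 : X'.1 = (wd X.1 Z)⁻¹ • (wd X.1 Z • X'.1) := by
        rw [smul_smul, inv_mul_cancel₀ hXZ0, one_smul]
      refine h4.trans ?_
      rw [h3, smul_sub, smul_smul, smul_smul, neg_mul, neg_smul, sub_eq_add_neg]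
    · rw [norm_mul, norm_neg, norm_inv, hXZ, inv_one, one_mul]
  set δ := ‖wd X'.1 X.1‖ with hδ
  have hδ0 : 0 < δ := norm_pos_iff.mpr h0
  have ht : ‖t‖ = 1 := by
    have h3 : ‖t • X.1‖ = ‖X'.1‖ := by
      apply norm_eq_of_sub_lt₂
      rw [X'.2, hX']
      have h4 : t • X.1 - (t • X.1 + ν • Z) = -(ν • Z) := by abel
      rw [h4, norm_neg, norm_smul, hZ, mul_one, hν]
      exact hδ3
    rwa [norm_smul, X.2, X'.2, mul_one] at h3
  have hx' : ‖X'.1.1 - t * X.1.1‖ ≤ δ := by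
    have h3 : X'.1.1 - t * X.1.1 = ν * Z.1 := by
      rw [hX']
      simp
    rw [h3, norm_mul, hν]
    exact mul_le_of_le_one_right (norm_nonneg _) ((norm_fst_le Z).trans hZ.le)
  have hy' : ‖X'.1.2 - t * X.1.2‖ ≤ δ := by
    have h3 : X'.1.2 - t * X.1.2 = ν * Z.2 := by
      rw [hX']
      simp
    rw [h3, norm_mul, hν]
    exact mul_le_of_le_one_right (norm_nonneg _) ((norm_snd_le Z).trans hZ.le)
  have hy'' : ‖X'.1.2‖ = ‖X.1.2‖ := by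
    have h3 : ‖X'.1.2‖ = ‖t * X.1.2‖ := by
      apply norm_eq_of_sub_lt
      rw [norm_mul t, ht, one_mul]
      exact hy'.trans_lt (hδ2.trans_le (mul_le_of_le_one_left (norm_nonneg _) hx1))
    rw [h3, norm_mul, ht, one_mul]
  -- the determinant of the images
  have hdn := hnat T.S.d (by omega)
  have hdet : ‖wd (T.S.F X'.1) (T.S.F X.1)‖ =
      δ * (‖X.1.1‖ * ‖X.1.2‖) ^ (T.S.d - 1) * Real.exp (-(2 * T.ρ)) := by
    have h3 : wd (T.S.F X'.1) (T.S.F X.1) =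
        ((X'.1.1 * X.1.2) ^ T.S.d - (X'.1.2 * X.1.1) ^ T.S.d) * wd T.U T.V := by
      rw [T.hF, T.hF, mul_pow, mul_pow]
      simp only [wd, Prod.fst_add, Prod.snd_add, Prod.smul_fst, Prod.smul_snd, smul_eq_mul]
      ring
    have h4 : X'.1.1 * X.1.2 - X'.1.2 * X.1.1 = wd X'.1 X.1 := rfl
    have h5 : ‖X'.1.2 * X.1.1‖ = ‖X.1.1‖ * ‖X.1.2‖ := by
      rw [norm_mul, hy'', mul_comm]
    rw [h3, norm_mul, norm_pow_sub_pow (by rw [h4, h5]; exact hδ2) T.S.d (by omega) hdn, h4, h5,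
      T.hρ]
  -- the sizes
  have hF0 : Real.exp (-(2 * T.ρ)) ≤ ‖T.S.F X.1‖ := by
    have h3 := hh1 X
    unfold hh at h3
    rw [← Real.le_log_iff_exp_le (norm_pos_iff.mpr (T.S.nz _ X.ne))]
    exact h3
  have hFX' : ‖T.S.F X'.1‖ = ‖T.S.F X.1‖ := by
    have h3 : ‖t ^ T.S.d • T.S.F X.1‖ = ‖T.S.F X.1‖ := by
      rw [norm_smul, norm_pow, ht, one_pow, one_mul]
    rw [← h3]
    apply norm_eq_of_sub_lt₂
    rw [h3]
    refine lt_of_le_of_lt ?_ (hδ1.trans_le hF0)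
    have h4 : T.S.F X'.1 - t ^ T.S.d • T.S.F X.1 =
        (X'.1.1 ^ T.S.d - (t * X.1.1) ^ T.S.d) • T.U -
          (-(X'.1.2 ^ T.S.d - (t * X.1.2) ^ T.S.d)) • T.V := by
      rw [T.hF, T.hF]
      ext <;> simp only [Prod.fst_add, Prod.snd_add, Prod.smul_fst, Prod.smul_snd, smul_eq_mul,
        Prod.fst_sub, Prod.snd_sub] <;> ring
    rw [h4]
    have hX1 : ‖X'.1.1‖ ≤ 1 := (norm_fst_le X'.1).trans X'.2.le
    have hX2 : ‖X'.1.2‖ ≤ 1 := (norm_snd_le X'.1).trans X'.2.le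
    refine (norm_sub_le_max _ _).trans (max_le ?_ ?_)
    · rw [norm_smul, T.hU, mul_one]
      refine (norm_pow_sub_pow_le hX1 ?_ _).trans hx'
      rw [norm_mul, ht, one_mul]
      exact hx1
    · rw [norm_smul, T.hV, mul_one, norm_neg]
      refine (norm_pow_sub_pow_le hX2 ?_ _).trans hy'
      rw [norm_mul, ht, one_mul]
      exact hx2
  -- conclusion
  obtain ⟨s, hs, hs1, hs2⟩ := fU_spec T.S X
  obtain ⟨s', hs', hs1', hs2'⟩ := fU_spec T.S X'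
  have hFp : 0 < ‖T.S.F X.1‖ := norm_pos_iff.mpr (T.S.nz _ X.ne)
  have hfin : ‖T.S.F X.1‖ * (‖T.S.F X.1‖ * ‖wd (fU T.S X').1 (fU T.S X).1‖) =
      δ * (‖X.1.1‖ * ‖X.1.2‖) ^ (T.S.d - 1) * Real.exp (-(2 * T.ρ)) := by
    rw [← hdet, hs1, hs1', wd_smul_left, wd_smul_right, norm_mul, norm_mul, hs2', hFX', hs2,
      ← hs1]
  have hpos : 0 < ‖wd (fU T.S X').1 (fU T.S X).1‖ := by
    have h3 : 0 < ‖T.S.F X.1‖ * (‖T.S.F X.1‖ * ‖wd (fU T.S X').1 (fU T.S X).1‖) := by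
      rw [hfin]
      positivity
    exact pos_of_mul_pos_right (pos_of_mul_pos_right h3 hFp.le) hFp.le
  refine ⟨norm_pos_iff.mp hpos, ?_⟩
  have hlog := congrArg Real.log hfin
  rw [Real.log_mul hFp.ne' (by positivity), Real.log_mul hFp.ne' hpos.ne',
    Real.log_mul (by positivity) (Real.exp_pos _).ne', Real.log_exp,
    Real.log_mul hδ0.ne' (by positivity), Real.log_pow] at hlog
  unfold eps hh
  have hcast : ((T.S.d - 1 : ℕ) : ℝ) = (T.S.d : ℝ) - 1 := by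
    rw [Nat.cast_sub (by omega)]
    simp
  rw [hcast] at hlog
  linarith

lemma telescope (hnat : ∀ n : ℕ, n ≠ 0 → ‖(n : Ω)‖ = 1)
    (hh1 : ∀ X : UV Ω, -(2 * T.ρ) ≤ hh T.S X) (J : ℕ) :
    ∀ X : UV Ω, (∀ j < J, ¬ eqv ((fU T.S)^[j] X) (e1 Ω) ∧ ¬ eqv ((fU T.S)^[j] X) (e2 Ω)) →
    ∃ δ₀ : ℝ, 0 < δ₀ ∧ ∀ X' : UV Ω, wd X'.1 X.1 ≠ 0 → ‖wd X'.1 X.1‖ < δ₀ →
      wd ((fU T.S)^[J] X').1 ((fU T.S)^[J] X).1 ≠ 0 ∧
      Real.log ‖wd ((fU T.S)^[J] X').1 ((fU T.S)^[J] X).1‖ =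
        Real.log ‖wd X'.1 X.1‖ + ∑ j ∈ range J, eps T ((fU T.S)^[j] X) := by
  induction J with
  | zero =>
    intro X _
    refine ⟨1, one_pos, fun X' h _ => ⟨h, ?_⟩⟩
    simp
  | succ J ih =>
    intro X hX
    obtain ⟨δ₁, hδ₁, h⟩ := ih (fU T.S X) (fun j hj => by
      have := hX (j + 1) (by omega)
      rwa [Function.iterate_succ_apply] at this)
    have h0 := hX 0 (by omega)
    rw [Function.iterate_zero_apply, eqv_e1, eqv_e2] at h0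
    have hp1 : 0 < ‖X.1.1‖ := norm_pos_iff.mpr h0.2
    have hp2 : 0 < ‖X.1.2‖ := norm_pos_iff.mpr h0.1
    refine ⟨min (min (Real.exp (-(2 * T.ρ))) (‖X.1.1‖ * ‖X.1.2‖)) (δ₁ * Real.exp (-eps T X)),
      by positivity, ?_⟩
    intro X' hX' hlt
    rw [lt_min_iff, lt_min_iff] at hlt
    obtain ⟨⟨hl1, hl2⟩, hl3⟩ := hlt
    obtain ⟨g1, g2⟩ := expand T hnat hh1 X X' h0.2 h0.1 hX' hl1 hl2
    have hpos : 0 < ‖wd X'.1 X.1‖ := norm_pos_iff.mpr hX'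
    have g3 : ‖wd (fU T.S X').1 (fU T.S X).1‖ < δ₁ := by
      have g4 : ‖wd (fU T.S X').1 (fU T.S X).1‖ = ‖wd X'.1 X.1‖ * Real.exp (eps T X) := by
        rw [← Real.exp_log (norm_pos_iff.mpr g1), g2, Real.exp_add, Real.exp_log hpos]
      rw [g4]
      calc ‖wd X'.1 X.1‖ * Real.exp (eps T X) < (δ₁ * Real.exp (-eps T X)) * Real.exp (eps T X) :=
            mul_lt_mul_of_pos_right hl3 (Real.exp_pos _)
        _ = δ₁ := by rw [mul_assoc, ← Real.exp_add, neg_add_cancel, Real.exp_zero, mul_one]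
    obtain ⟨g5, g6⟩ := h (fU T.S X') g1 g3
    rw [Function.iterate_succ_apply, Function.iterate_succ_apply]
    refine ⟨g5, ?_⟩
    rw [g6, g2, sum_range_succ']
    simp only [Function.iterate_succ_apply, Function.iterate_zero_apply]
    ring

/-- the two logarithms of the expansion -/
lemma ee_eq (hG : ∀ X : UV Ω, G0 T.S (fU T.S X) = T.S.d * G0 T.S X - hh T.S X) (X : UV Ω)
    (h1 : X.1.1 ≠ 0) (h2 : X.1.2 ≠ 0) :
    ee T X = eps T X + 2 * G0 T.S X - 2 * G0 T.S (fU T.S X) := by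
  have hd := T.hd
  have hd' : (2 : ℝ) ≤ T.S.d := by exact_mod_cast hd
  have hp1 : 0 < ‖X.1.1‖ := norm_pos_iff.mpr h1
  have hp2 : 0 < ‖X.1.2‖ := norm_pos_iff.mpr h2
  have w1 : ‖wd X.1 (e1 Ω).1‖ = ‖X.1.2‖ := by
    have : wd X.1 (e1 Ω).1 = -X.1.2 := by
      unfold wd e1
      simp
    rw [this, norm_neg]
  have w2 : ‖wd X.1 (e2 Ω).1‖ = ‖X.1.1‖ := by
    have : wd X.1 (e2 Ω).1 = X.1.1 := by
      unfold wd e2
      simp
    rw [this]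
  have w3 : ‖wd (e1 Ω).1 (e2 Ω).1‖ = 1 := by
    have : wd (e1 Ω).1 (e2 Ω).1 = (1 : Ω) := by
      unfold wd e1 e2
      simp
    rw [this, norm_one]
  have hC : ((T.S.d : ℝ) - 1) * (T.S.Res / (T.S.d * ((T.S.d : ℝ) - 1))) = 2 * T.ρ := by
    rw [T.hRes]
    have h3 : (T.S.d : ℝ) - 1 ≠ 0 := by linarith
    have h4 : (T.S.d : ℝ) ≠ 0 := by linarith
    field_simp
  have hG' := hG X
  unfold ee LC gg eps
  rw [w1, w2, w3, Real.log_one, Real.log_mul hp1.ne' hp2.ne', hG']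
  generalize T.S.Res / (T.S.d * ((T.S.d : ℝ) - 1)) = C at hC ⊢
  linear_combination (-1) * hC

lemma sum_ee_eq (hG : ∀ X : UV Ω, G0 T.S (fU T.S X) = T.S.d * G0 T.S X - hh T.S X) (J : ℕ)
    (X : UV Ω)
    (hX : ∀ j < J, ¬ eqv ((fU T.S)^[j] X) (e1 Ω) ∧ ¬ eqv ((fU T.S)^[j] X) (e2 Ω)) :
    ∑ j ∈ range J, ee T ((fU T.S)^[j] X) = ∑ j ∈ range J, eps T ((fU T.S)^[j] X) +
      2 * G0 T.S X - 2 * G0 T.S ((fU T.S)^[J] X) := by
  induction J with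
  | zero => simp
  | succ J ih =>
    have h0 := hX J (by omega)
    rw [eqv_e1, eqv_e2] at h0
    rw [sum_range_succ, sum_range_succ, ih (fun j hj => hX j (by omega)),
      ee_eq T hG _ h0.2 h0.1, Function.iterate_succ_apply']
    ring

end Expand

theorem t_COV : S_GRN.{u} → S_COV.{u} := by
  intro hGRN Ω _ _ _ hnat T J b₁ b₂ hb c₁ c₂ η₁ η₂ h₁ h₂ X s hs hX hsum
  obtain ⟨hρ, hh1, hG1, hG2, -⟩ := hGRN Ω hnat T
  have hd := T.hd
  have hd' : (2 : ℝ) ≤ T.S.d := by exact_mod_cast hd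
  -- the sum of the expansions
  have hG3 : ∀ Y : UV Ω, -(2 * T.ρ) ≤ G0 T.S Y := by
    intro Y
    refine le_trans ?_ (hG1 Y).1
    rw [neg_le_neg_iff]
    exact div_le_self (by positivity) (by linarith)
  have hsum2 : s < ∑ j ∈ range J, eps T ((fU T.S)^[j] X) := by
    rw [sum_ee_eq T hG2 J X hX] at hsum
    have g1 := (hG1 X).2
    have g2 := hG3 ((fU T.S)^[J] X)
    linarith
  by_contra hcon
  push Not at hcon
  have hη₁ : ∀ l, Real.exp (-s) < ‖wd X.1 (η₁ l).1‖ := fun l => (hcon l).1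
  have hη₂ : ∀ l, Real.exp (-s) < ‖wd X.1 (η₂ l).1‖ := fun l => (hcon l).2
  obtain ⟨δ₀, hδ₀, htel⟩ := telescope T hnat (fun Y => (hh1 Y).1) J X hX
  -- a transversal vector
  obtain ⟨Z, hZ, hXZ⟩ : ∃ Z : Ω × Ω, ‖Z‖ = 1 ∧ ‖wd X.1 Z‖ = 1 := by
    have h3 := X.2
    rw [Prod.norm_def] at h3
    rcases le_total ‖X.1.1‖ ‖X.1.2‖ with h | h
    · rw [max_eq_right h] at h3
      exact ⟨(1, 0), norm_e1, by unfold wd; simpa using h3⟩
    · rw [max_eq_left h] at h3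
      exact ⟨(0, 1), norm_e2, by unfold wd; simpa using h3⟩
  -- a small scalar
  obtain ⟨μ, hμ0, hμ⟩ : ∃ μ : Ω, μ ≠ 0 ∧ ‖μ‖ < min δ₀ (Real.exp (-s)) := by
    by_cases hm : ∃ m : Ω, m ≠ 0 ∧ ‖m‖ < 1
    · obtain ⟨m, hm0, hm1⟩ := hm
      obtain ⟨n, hn⟩ := exists_pow_lt_of_lt_one (show 0 < min δ₀ (Real.exp (-s)) by positivity) hm1
      exact ⟨m ^ n, pow_ne_zero _ hm0, by rwa [norm_pow]⟩
    · exfalso
      push Not at hm
      have htriv : ∀ m : Ω, m ≠ 0 → ‖m‖ = 1 := by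
        intro m hm0
        apply le_antisymm _ (hm m hm0)
        have h3 := hm m⁻¹ (inv_ne_zero hm0)
        rw [norm_inv] at h3
        exact (one_le_inv₀ (norm_pos_iff.mpr hm0)).mp h3
      have htriv2 : ∀ W : Ω × Ω, W ≠ 0 → ‖W‖ = 1 := by
        intro W hW
        obtain ⟨t, W', ht, -, -, ht2⟩ := exists_unit W hW
        rw [← ht2]
        exact htriv t ht
      have hUV : wd T.U T.V ≠ 0 := by
        intro h0
        have := T.hρ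
        rw [h0, norm_zero] at this
        exact (Real.exp_pos _).ne this
      have hρ0 : T.ρ = 0 := by
        have h3 := T.hρ
        rw [htriv _ hUV] at h3
        have h4 := congrArg Real.log h3
        rw [Real.log_one, Real.log_exp] at h4
        linarith
      have hzero : ∑ j ∈ range J, eps T ((fU T.S)^[j] X) = 0 := by
        apply sum_eq_zero
        intro j hj
        have h0 := hX j (mem_range.mp hj)
        rw [eqv_e1, eqv_e2] at h0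
        unfold eps hh
        rw [htriv _ h0.1, htriv _ h0.2, htriv2 _ (T.S.nz _ (UV.ne _)), hρ0]
        simp
      rw [hzero] at hsum2
      exact absurd hsum2 (not_lt.mpr hs)
  rw [lt_min_iff] at hμ
  have hμ1 : ‖μ‖ * Real.exp s < 1 := by
    calc ‖μ‖ * Real.exp s < Real.exp (-s) * Real.exp s :=
          mul_lt_mul_of_pos_right hμ.2 (Real.exp_pos _)
      _ = 1 := by rw [← Real.exp_add, neg_add_cancel, Real.exp_zero]
  have hμ2 : ‖μ‖ < 1 := hμ.2.trans_le (Real.exp_le_one_iff.mpr (by linarith))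
  have hμp : 0 < ‖μ‖ := norm_pos_iff.mpr hμ0
  -- the vector `X'`
  have hX'n : ‖X.1 + μ • Z‖ = 1 := by
    refine (norm_eq_of_sub_lt₂ (b := X.1) ?_).trans X.2
    rw [add_sub_cancel_left, norm_smul, hZ, mul_one, X.2]
    exact hμ2
  let X' : UV Ω := ⟨X.1 + μ • Z, hX'n⟩
  have hwd : ‖wd X'.1 X.1‖ = ‖μ‖ := by
    have h3 : wd X'.1 X.1 = μ * wd Z X.1 := by
      show wd (X.1 + μ • Z) X.1 = _
      rw [wd_add_left, wd_smul_left, wd_self, zero_add]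
    rw [h3, norm_mul, wd_comm, norm_neg, hXZ, mul_one]
  obtain ⟨k1, k2⟩ := htel X' (norm_pos_iff.mp (by rw [hwd]; exact hμp)) (by rw [hwd]; exact hμ.1)
  obtain ⟨k3, k4⟩ := schwarz (T.S.iter J) b₁.2 b₂.2 hb h₁ h₂ X.1 Z hZ μ s hμ1 hη₁ hη₂
  rw [HS.iter_F] at k3 k4
  obtain ⟨t, ht, ht1, ht2⟩ := iter_spec T.S J X
  obtain ⟨t', ht', ht1', ht2'⟩ := iter_spec T.S J X'
  have k5 : wd (T.S.F^[J] X'.1) (T.S.F^[J] X.1) =
      t' * (t * wd ((fU T.S)^[J] X').1 ((fU T.S)^[J] X).1) := by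
    rw [ht1, ht1', wd_smul_left, wd_smul_right]
  have hApos : 0 < ‖T.S.F^[J] X.1‖ := by
    rw [← ht2]
    exact norm_pos_iff.mpr ht
  have hk : 0 < ‖wd ((fU T.S)^[J] X').1 ((fU T.S)^[J] X).1‖ := norm_pos_iff.mpr k1
  have k6 : ‖wd ((fU T.S)^[J] X').1 ((fU T.S)^[J] X).1‖ ≤ ‖μ‖ * Real.exp s := by
    have k7 : ‖T.S.F^[J] X'.1‖ * (‖T.S.F^[J] X.1‖ *
        ‖wd ((fU T.S)^[J] X').1 ((fU T.S)^[J] X).1‖) ≤
        ‖T.S.F^[J] X.1‖ ^ 2 * (‖μ‖ * Real.exp s) := by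
      rw [← ht2', ← ht2, ← norm_mul, ← norm_mul, ← k5, ht2]
      exact k3
    have k8 : ‖T.S.F^[J] X.1‖ * (‖T.S.F^[J] X.1‖ *
        ‖wd ((fU T.S)^[J] X').1 ((fU T.S)^[J] X).1‖) ≤
        ‖T.S.F^[J] X.1‖ ^ 2 * (‖μ‖ * Real.exp s) :=
      (mul_le_mul_of_nonneg_right k4 (by positivity)).trans k7
    have k9 : ‖T.S.F^[J] X.1‖ ^ 2 * ‖wd ((fU T.S)^[J] X').1 ((fU T.S)^[J] X).1‖ ≤
        ‖T.S.F^[J] X.1‖ ^ 2 * (‖μ‖ * Real.exp s) := by
      rw [pow_two, mul_assoc, ← pow_two]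
      exact k8
    exact le_of_mul_le_mul_left k9 (by positivity)
  have k10 := Real.log_le_log hk k6
  rw [k2, hwd, Real.log_mul hμp.ne' (Real.exp_pos _).ne', Real.log_exp] at k10
  linarith

end Pool.Agent.Y405.BI
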